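import Pool.Agent.Helper99.AA.Stmts
import Pool.Agent.Helper99.AA.Basic

set_option autoImplicit false

/-!
Project AA, row LO: lower bound for the number of pairs of primes in long windows.
-/

open Finset MeasureTheory
open scoped BigOperators Nat

namespace Pool.Agent.Helper80.AA

open Pool.Agent.Helper40.MR Pool.Agent.Helper99.AA

theorem mem_PrI {a b : ℝ} {p : ℕ} (ha : 0 ≤ a) :
    p ∈ PrI a b ↔ a < p ∧ (p : ℝ) ≤ b ∧ p.Prime := by
  rw [PrI, IocN, Finset.mem_filter, Finset.mem_Ioc]
  constructor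
  · rintro ⟨⟨h1, h2⟩, h3⟩
    have hp : p ≠ 0 := h3.ne_zero
    refine ⟨(Nat.floor_lt ha).mp h1, (Nat.le_floor_iff' hp).mp h2, h3⟩
  · rintro ⟨h1, h2, h3⟩
    have hp : p ≠ 0 := h3.ne_zero
    exact ⟨⟨(Nat.floor_lt ha).mpr h1, (Nat.le_floor_iff' hp).mpr h2⟩, h3⟩

open Classical in
theorem Wn_eq (η M δ u : ℝ) : Wn η M δ u = ∑ p ∈ Pa η M, ((Qa η M).filter
    (fun q : ℕ => u < Real.log ((p * q : ℕ) : ℝ) ∧ Real.log ((p * q : ℕ) : ℝ) ≤ u + δ)).card := by
  rw [Wn, Finset.card_filter, Finset.sum_product]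
  apply Finset.sum_congr rfl
  intro p _
  rw [Finset.card_filter]

theorem st_LO (hPI : ST_PI) : ST_LO := by
  intro η δ₂ hη hη1 hδ hδ1
  obtain ⟨x₁, hx₁⟩ := hPI δ₂ hδ (by linarith)
  obtain ⟨x₂, hx₂⟩ := hPI (η / 2) (by positivity) (by linarith)
  refine ⟨max (max (2 * x₁) x₂) 16, ?_⟩
  intro M u hM hu1 hu2
  have hM1 : 2 * x₁ ≤ M := le_trans (le_trans (le_max_left _ _) (le_max_left _ _)) hM
  have hM2 : x₂ ≤ M := le_trans (le_trans (le_max_right _ _) (le_max_left _ _)) hM
  have hM3 : 16 ≤ M := le_trans (le_max_right _ _) hM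
  have hM0 : 0 < M := by linarith
  have hlM : 0 < Real.log M := Real.log_pos (by linarith)
  have hl2 : Real.log 2 ≤ Real.log M := Real.log_le_log (by norm_num) (by linarith)
  have hE : 0 < Real.exp u := Real.exp_pos u
  -- the number of the larger primes
  have hPa : η * M / (8 * Real.log M) ≤ ((Pa η M).card : ℝ) := by
    have h1 := hx₂ (M * (1 + η)) (by nlinarith)
    have hsub : PrI (M * (1 + η)) ((1 + η / 2) * (M * (1 + η))) ⊆ Pa η M := by
      intro p hp
      rw [mem_PrI (by positivity)] at hp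
      rw [Pa, mem_PrI (by positivity)]
      refine ⟨hp.1, le_trans hp.2.1 ?_, hp.2.2⟩
      have : M * (1 + 2 * η) - (1 + η / 2) * (M * (1 + η)) = M * η * (1 - η) / 2 := by ring
      have h2 : 0 ≤ M * η * (1 - η) / 2 := by
        apply div_nonneg _ (by norm_num)
        apply mul_nonneg (by positivity); linarith
      linarith
    have h2 : ((PrI (M * (1 + η)) ((1 + η / 2) * (M * (1 + η)))).card : ℝ) ≤ ((Pa η M).card : ℝ) := by
      exact_mod_cast Finset.card_le_card hsub
    refine le_trans ?_ (le_trans h1 h2)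
    have h3 : Real.log (M * (1 + η)) ≤ 2 * Real.log M := by
      calc Real.log (M * (1 + η)) ≤ Real.log (M * 2) :=
            Real.log_le_log (by positivity) (mul_le_mul_of_nonneg_left (by linarith) hM0.le)
        _ = Real.log M + Real.log 2 := Real.log_mul hM0.ne' (by norm_num)
        _ ≤ 2 * Real.log M := by linarith
    have h4 : 0 < Real.log (M * (1 + η)) := Real.log_pos (by nlinarith)
    rw [div_le_div_iff₀ (by positivity) (by positivity)]
    have h5 : η * M * (2 * Real.log (M * (1 + η))) ≤ η * M * (2 * (2 * Real.log M)) := by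
      apply mul_le_mul_of_nonneg_left _ (by positivity); linarith
    have h6 : 0 ≤ η * M * Real.log M * η := by positivity
    nlinarith
  -- the number of the smaller primes
  have hQ : ∀ p ∈ Pa η M, δ₂ * Real.exp u / (4 * M * Real.log M) ≤ (((Qa η M).filter
      (fun q : ℕ => u < Real.log ((p * q : ℕ) : ℝ) ∧
        Real.log ((p * q : ℕ) : ℝ) ≤ u + δ₂)).card : ℝ) := by
    intro p hp
    rw [Pa, mem_PrI (by positivity)] at hp
    obtain ⟨hp1, hp2, hp3⟩ := hp
    have hp0 : (0 : ℝ) < p := by exact_mod_cast hp3.pos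
    obtain ⟨x, hx⟩ : ∃ x, x = Real.exp u / p := ⟨_, rfl⟩
    have hxp : x * p = Real.exp u := by rw [hx]; field_simp
    have hxl : M / 2 ≤ x := by
      by_contra hc
      push Not at hc
      have h1 : x * p ≤ M / 2 * (M * (1 + 2 * η)) :=
        mul_le_mul hc.le hp2 hp0.le (by positivity)
      have h2 : M / 2 * (M * (1 + 2 * η)) < M ^ 2 * (1 - η / 4) := by
        have : 0 < M ^ 2 * (1 / 2 - 5 / 4 * η) := by
          apply mul_pos (by positivity); linarith
        nlinarith
      linarith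
    have hxl' : M * (1 - 3 * η) ≤ x := by
      by_contra hc
      push Not at hc
      have h1 : x * p ≤ (M * (1 - 3 * η)) * (M * (1 + 2 * η)) :=
        mul_le_mul hc.le hp2 hp0.le (by apply mul_nonneg hM0.le; linarith)
      have h2 : (M * (1 - 3 * η)) * (M * (1 + 2 * η)) < M ^ 2 * (1 - η / 4) := by
        have h3 : M ^ 2 * (1 - η / 4) - (M * (1 - 3 * η)) * (M * (1 + 2 * η)) =
          M ^ 2 * (3 / 4 * η + 6 * η ^ 2) := by ring
        have : 0 < M ^ 2 * (3 / 4 * η + 6 * η ^ 2) := by positivity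
        linarith
      linarith
    have hxu : x ≤ M := by
      by_contra hc
      push Not at hc
      have h1 : M * (M * (1 + η)) < x * p :=
        mul_lt_mul'' hc hp1 hM0.le (by positivity)
      have h2 : M * (M * (1 + η)) = M ^ 2 * (1 + η) := by ring
      linarith
    have hx0 : 0 < x := by linarith
    have hcard := hx₁ x (by linarith)
    have hsub : PrI x ((1 + δ₂) * x) ⊆ (Qa η M).filter
      (fun q : ℕ => u < Real.log ((p * q : ℕ) : ℝ) ∧
        Real.log ((p * q : ℕ) : ℝ) ≤ u + δ₂) := by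
      intro q hq
      rw [mem_PrI hx0.le] at hq
      obtain ⟨hq1, hq2, hq3⟩ := hq
      have hq0 : (0 : ℝ) < q := by exact_mod_cast hq3.pos
      rw [Finset.mem_filter, Qa, mem_PrI (by apply mul_nonneg hM0.le; linarith)]
      refine ⟨⟨lt_of_le_of_lt hxl' hq1, ?_, hq3⟩, ?_, ?_⟩
      · calc (q : ℝ) ≤ (1 + δ₂) * x := hq2
          _ ≤ (1 + δ₂) * M := mul_le_mul_of_nonneg_left hxu (by linarith)
          _ = M * (1 + δ₂) := by ring
          _ ≤ M * (1 + η) := mul_le_mul_of_nonneg_left (by linarith) hM0.le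
      · rw [Real.lt_log_iff_exp_lt (by push_cast; positivity)]
        push_cast
        rw [← hxp, mul_comm x]
        exact mul_lt_mul_of_pos_left hq1 hp0
      · rw [Real.log_le_iff_le_exp (by push_cast; positivity), Real.exp_add]
        push_cast
        have h1 : 1 + δ₂ ≤ Real.exp δ₂ := by
          have := Real.add_one_le_exp δ₂; linarith
        calc (p : ℝ) * q ≤ p * ((1 + δ₂) * x) := mul_le_mul_of_nonneg_left hq2 hp0.le
          _ = Real.exp u * (1 + δ₂) := by rw [← hxp]; ring
          _ ≤ Real.exp u * Real.exp δ₂ := mul_le_mul_of_nonneg_left h1 hE.le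
    have h2 : ((PrI x ((1 + δ₂) * x)).card : ℝ) ≤ (((Qa η M).filter
      (fun q : ℕ => u < Real.log ((p * q : ℕ) : ℝ) ∧
        Real.log ((p * q : ℕ) : ℝ) ≤ u + δ₂)).card : ℝ) := by
      exact_mod_cast Finset.card_le_card hsub
    refine le_trans ?_ (le_trans hcard h2)
    have hlx : 0 < Real.log x := Real.log_pos (by linarith)
    have hlxM : Real.log x ≤ Real.log M := Real.log_le_log hx0 hxu
    rw [div_le_div_iff₀ (by positivity) (by positivity)]
    have h3 : (p : ℝ) ≤ 2 * M := by nlinarith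
    have h4 : Real.exp u ≤ x * (2 * M) := by
      rw [← hxp]; exact mul_le_mul_of_nonneg_left h3 hx0.le
    calc δ₂ * Real.exp u * (2 * Real.log x) ≤ δ₂ * (x * (2 * M)) * (2 * Real.log M) := by
          apply mul_le_mul _ (by linarith) (by positivity) (by positivity)
          exact mul_le_mul_of_nonneg_left h4 hδ.le
      _ = δ₂ * x * (4 * M * Real.log M) := by ring
  have hsum : ((Pa η M).card : ℝ) * (δ₂ * Real.exp u / (4 * M * Real.log M)) ≤
      (Wn η M δ₂ u : ℝ) := by
    rw [Wn_eq, ← nsmul_eq_mul, Nat.cast_sum]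
    exact Finset.card_nsmul_le_sum _ _ _ hQ
  have h7 : η * M / (8 * Real.log M) * (δ₂ * Real.exp u / (4 * M * Real.log M)) ≤
      (Wn η M δ₂ u : ℝ) :=
    le_trans (mul_le_mul_of_nonneg_right hPa (by positivity)) hsum
  refine le_trans ?_ h7
  have h8 : η * M / (8 * Real.log M) * (δ₂ * Real.exp u / (4 * M * Real.log M)) =
      Real.exp u * δ₂ * η / (32 * Real.log M ^ 2) := by
    field_simp
    norm_num
  rw [h8]
  apply div_le_div_of_nonneg_left (by positivity) (by positivity)
  have : 0 < Real.log M ^ 2 := by positivity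
  linarith

end Pool.Agent.Helper80.AA
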