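import Pool.Agent.Helper99.AA.Stmts
import Pool.Agent.Helper99.AA.Basic

set_option autoImplicit false

/-!
Project AA, row PI: primes in short multiplicative intervals, from the prime number theorem.
-/

open Finset MeasureTheory
open scoped BigOperators Nat

namespace Pool.Agent.Helper80.AA

open Pool.Agent.Helper40.MR Pool.Agent.Helper99.AA

theorem theta_sub_eq {x y : ℝ} (hxy : x ≤ y) :
    Chebyshev.theta y - Chebyshev.theta x = ∑ p ∈ PrI x y, Real.log p := by
  have h1 : Chebyshev.theta y = ∑ p ∈ (Ioc 0 ⌊y⌋₊).filter Nat.Prime, Real.log p := rfl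
  have h2 : Chebyshev.theta x = ∑ p ∈ (Ioc 0 ⌊x⌋₊).filter Nat.Prime, Real.log p := rfl
  rw [h1, h2, PrI, IocN]
  have hfl : ⌊x⌋₊ ≤ ⌊y⌋₊ := Nat.floor_mono hxy
  have hu : (Ioc 0 ⌊y⌋₊).filter Nat.Prime =
      (Ioc 0 ⌊x⌋₊).filter Nat.Prime ∪ (Ioc ⌊x⌋₊ ⌊y⌋₊).filter Nat.Prime := by
    rw [← Finset.filter_union, Finset.Ioc_union_Ioc_eq_Ioc (Nat.zero_le _) hfl]
  have hd : Disjoint ((Ioc 0 ⌊x⌋₊).filter Nat.Prime) ((Ioc ⌊x⌋₊ ⌊y⌋₊).filter Nat.Prime) := by
    apply Finset.disjoint_filter_filter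
    rw [Finset.disjoint_left]
    intro a ha hb
    rw [Finset.mem_Ioc] at ha hb
    omega
  rw [hu, Finset.sum_union hd]
  ring

theorem theta_sub_le {x y : ℝ} (hx : 1 ≤ x) (hxy : x ≤ y) :
    Chebyshev.theta y - Chebyshev.theta x ≤ ((PrI x y).card : ℝ) * Real.log y := by
  rw [theta_sub_eq hxy, ← nsmul_eq_mul]
  apply Finset.sum_le_card_nsmul
  intro p hp
  rw [PrI, IocN, Finset.mem_filter, Finset.mem_Ioc] at hp
  obtain ⟨⟨h1, h2⟩, h3⟩ := hp
  have hp0 : (0 : ℝ) < p := by exact_mod_cast h3.pos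
  apply Real.log_le_log hp0
  calc (p : ℝ) ≤ (⌊y⌋₊ : ℝ) := by exact_mod_cast h2
    _ ≤ y := Nat.floor_le (by linarith)

theorem st_PI (hPN : ST_PN) : ST_PI := by
  intro δ hδ hδ1
  obtain ⟨x₁, hx₁⟩ := hPN (δ / 12) (by positivity)
  obtain ⟨C, hC⟩ := Chebyshev.psi_sub_theta_le_mul_sqrt
  refine ⟨max (max x₁ 8) (2 * (12 * C / δ) ^ 2), ?_⟩
  intro x hx
  have hxa : x₁ ≤ x := le_trans (le_trans (le_max_left _ _) (le_max_left _ _)) hx
  have hx8 : 8 ≤ x := le_trans (le_trans (le_max_right _ _) (le_max_left _ _)) hx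
  have hxC : 2 * (12 * C / δ) ^ 2 ≤ x := le_trans (le_max_right _ _) hx
  have hx0 : 0 < x := by linarith
  obtain ⟨y, hy⟩ : ∃ y, y = (1 + δ) * x := ⟨_, rfl⟩
  rw [← hy]
  have hxy : x ≤ y := by rw [hy]; nlinarith
  have hy2 : y ≤ 2 * x := by rw [hy]; nlinarith
  have e1 := abs_le.mp (hx₁ x hxa)
  have e2 := abs_le.mp (hx₁ y (le_trans hxa hxy))
  have e3 := hC y
  have e4 := Chebyshev.theta_le_psi x
  -- the square root
  have hsq : C * Real.sqrt y ≤ δ / 12 * x := by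
    by_cases hC0 : C ≤ 0
    · have : C * Real.sqrt y ≤ 0 := mul_nonpos_of_nonpos_of_nonneg hC0 (Real.sqrt_nonneg _)
      have : 0 ≤ δ / 12 * x := by positivity
      linarith
    · push Not at hC0
      have h1 : C * Real.sqrt y = Real.sqrt (C ^ 2 * y) := by
        rw [Real.sqrt_mul (sq_nonneg C), Real.sqrt_sq hC0.le]
      rw [h1]
      apply Real.sqrt_le_iff.mpr
      refine ⟨by positivity, ?_⟩
      have h2 : 2 * (12 * C / δ) ^ 2 * (δ / 12) ^ 2 = 2 * C ^ 2 := by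
        field_simp
      have h3 : 2 * C ^ 2 ≤ x * (δ / 12) ^ 2 := by
        rw [← h2]
        exact mul_le_mul_of_nonneg_right hxC (by positivity)
      calc C ^ 2 * y ≤ C ^ 2 * (2 * x) := mul_le_mul_of_nonneg_left hy2 (by positivity)
        _ = (2 * C ^ 2) * x := by ring
        _ ≤ (x * (δ / 12) ^ 2) * x := mul_le_mul_of_nonneg_right h3 hx0.le
        _ = (δ / 12 * x) ^ 2 := by ring
  have hcard := theta_sub_le (by linarith : (1 : ℝ) ≤ x) hxy
  have hlow : 2 / 3 * (δ * x) ≤ Chebyshev.theta y - Chebyshev.theta x := by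
    have h1 : y * (1 - δ / 12) ≤ Chebyshev.psi y := by nlinarith [e2.1]
    have h2 : Chebyshev.theta x ≤ x * (1 + δ / 12) := by nlinarith [e1.2]
    have h3 : y * (1 - δ / 12) - x * (1 + δ / 12) - δ / 12 * x ≥ 2 / 3 * (δ * x) := by
      rw [hy]
      have : (1 + δ) * x * (1 - δ / 12) - x * (1 + δ / 12) - δ / 12 * x - 2 / 3 * (δ * x) =
        δ * x / 12 * (1 - δ) := by ring
      have h4 : 0 ≤ δ * x / 12 * (1 - δ) := by
        apply mul_nonneg (by positivity); linarith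
      linarith
    linarith
  have hlogx : 3 * Real.log 2 ≤ Real.log x := by
    have : Real.log 8 = 3 * Real.log 2 := by
      rw [show (8 : ℝ) = 2 ^ 3 by norm_num, Real.log_pow]; norm_num
    rw [← this]
    exact Real.log_le_log (by norm_num) hx8
  have hl2 : 0 < Real.log 2 := Real.log_pos (by norm_num)
  have hlogy : Real.log y ≤ 4 / 3 * Real.log x := by
    calc Real.log y ≤ Real.log (2 * x) := Real.log_le_log (by linarith) hy2
      _ = Real.log 2 + Real.log x := Real.log_mul (by norm_num) hx0.ne'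
      _ ≤ 4 / 3 * Real.log x := by linarith
  have hlx : 0 < Real.log x := by linarith
  have hfin : 2 / 3 * (δ * x) ≤ ((PrI x y).card : ℝ) * (4 / 3 * Real.log x) :=
    le_trans (le_trans hlow hcard) (mul_le_mul_of_nonneg_left hlogy (Nat.cast_nonneg _))
  rw [div_le_iff₀ (by positivity)]
  linarith

end Pool.Agent.Helper80.AA
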