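import Pool.Agent.Helper99.AA.Stmts
import Pool.Agent.Helper99.AA.Basic
import Pool.Agent.Helper45.MR.H4

set_option autoImplicit false

/-!
Project AA, row PN: the prime number theorem, from the Tauberian theorem TB.
-/

open Finset MeasureTheory
open scoped BigOperators Nat FourierTransform Topology

namespace Pool.Agent.Helper80.AA

open Pool.Agent.Helper40.MR Pool.Agent.Helper99.AA

/-- The von Mangoldt function with complex values. -/
noncomputable def vmc (n : ℕ) : ℂ := (ArithmeticFunction.vonMangoldt n : ℂ)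

/-- The indicator of the half line, times an exponential. -/
noncomputable def eh (σ u : ℝ) : ℂ := if 0 ≤ u then (Real.exp (-σ * u) : ℂ) else 0

/-- The normalized error term. -/
noncomputable def Bp (u : ℝ) : ℂ := h4F vmc 0 u - eh 0 u

theorem Bp_mul (σ u : ℝ) : Bp u * (Real.exp (-σ * u) : ℂ) = h4F vmc σ u - eh σ u := by
  rw [Bp, h4F, h4F, eh, eh]
  have h1 : ((Real.exp (-((1 + 0) * u)) : ℝ) : ℂ) * ((Real.exp (-σ * u) : ℝ) : ℂ) =
      ((Real.exp (-((1 + σ) * u)) : ℝ) : ℂ) := by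
    rw [← Complex.ofReal_mul, ← Real.exp_add]; congr 2; ring
  split_ifs with h
  · rw [sub_mul, mul_assoc, h1]; simp
  · rw [sub_zero, sub_zero, mul_assoc, h1]

theorem vmc_norm (n : ℕ) : ‖vmc n‖ ≤ ArithmeticFunction.vonMangoldt n := by
  rw [vmc, Complex.norm_real, Real.norm_of_nonneg ArithmeticFunction.vonMangoldt_nonneg]

theorem Sg_vmc (x : ℝ) : Sg vmc x = ((Chebyshev.psi x : ℝ) : ℂ) := by
  have h : Chebyshev.psi x = ∑ n ∈ Icc 1 ⌊x⌋₊, ArithmeticFunction.vonMangoldt n := rfl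
  rw [h, Sg]
  push_cast
  rfl

theorem eh_meas (σ : ℝ) : Measurable (eh σ) := by
  unfold eh
  exact Measurable.ite measurableSet_Ici (by fun_prop) measurable_const

theorem eh_eq (σ : ℝ) : eh σ = (Set.Ici (0 : ℝ)).indicator (fun u => ((Real.exp (-σ * u) : ℝ) : ℂ)) := by
  funext u
  rw [eh]
  by_cases h : 0 ≤ u
  · rw [if_pos h, Set.indicator_of_mem (show u ∈ Set.Ici (0 : ℝ) from h)]
  · rw [if_neg h, Set.indicator_of_notMem (show u ∉ Set.Ici (0 : ℝ) from h)]

theorem eh_int {σ : ℝ} (hσ : 0 < σ) : Integrable (eh σ) := by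
  rw [eh_eq, integrable_indicator_iff measurableSet_Ici, integrableOn_Ici_iff_integrableOn_Ioi]
  have := integrableOn_exp_mul_Ioi (a := -σ) (by linarith) 0
  exact this.ofReal

theorem eh_fourier {σ : ℝ} (hσ : 0 < σ) (y : ℝ) :
    𝓕 (eh σ) y = 1 / ((σ : ℂ) + ((2 * Real.pi * y : ℝ) : ℂ) * Complex.I) := by
  rw [Real.fourier_real_eq_integral_exp_smul]
  set z : ℂ := -((σ : ℂ) + ((2 * Real.pi * y : ℝ) : ℂ) * Complex.I) with hz
  have hzre : z.re = -σ := by simp [hz]
  have h1 : ∀ v : ℝ, Complex.exp (((-2 * Real.pi * v * y : ℝ) : ℂ) * Complex.I) • eh σ v =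
      (Set.Ici (0 : ℝ)).indicator (fun u : ℝ => Complex.exp (z * u)) v := by
    intro v
    rw [eh_eq]
    by_cases h : v ∈ Set.Ici (0 : ℝ)
    · rw [Set.indicator_of_mem h, Set.indicator_of_mem h, smul_eq_mul, Complex.ofReal_exp,
        ← Complex.exp_add]
      congr 1
      rw [hz]; push_cast; ring
    · rw [Set.indicator_of_notMem h, Set.indicator_of_notMem h, smul_zero]
  simp_rw [h1]
  rw [integral_indicator measurableSet_Ici, integral_Ici_eq_integral_Ioi,
    integral_exp_mul_complex_Ioi (by rw [hzre]; linarith)]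
  rw [hz]
  simp only [Complex.ofReal_zero, mul_zero, Complex.exp_zero]
  rw [neg_div_neg_eq]

/-- The function `ζ'/ζ` regularized at `1`. -/
theorem exists_F : ∃ F : ℂ → ℂ, ContinuousOn F {s | 1 ≤ s.re} ∧
    ∀ s : ℂ, 1 < s.re → LSeries vmc s = F s + 1 / (s - 1) := by
  refine ⟨ArithmeticFunction.vonMangoldt.LFunctionResidueClassAux (1 : ZMod 1),
    ArithmeticFunction.vonMangoldt.continuousOn_LFunctionResidueClassAux (1 : ZMod 1), ?_⟩
  intro s hs
  have h1 := ArithmeticFunction.vonMangoldt.eqOn_LFunctionResidueClassAux (a := (1 : ZMod 1))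
    isUnit_one (show s ∈ {s : ℂ | 1 < s.re} from hs)
  rw [h1]
  have h2 : LSeries (fun n => ((ArithmeticFunction.vonMangoldt.residueClass (1 : ZMod 1) n : ℝ) : ℂ)) s =
      LSeries vmc s := by
    congr 1
    funext n
    rw [vmc]
    congr 1
    have : n ∈ {n : ℕ | (n : ZMod 1) = 1} := Subsingleton.elim _ _
    exact Set.indicator_of_mem this _
  simp only [Nat.totient_one, Nat.cast_one, inv_one]
  rw [h2]; ring

theorem Bp_fourier {F : ℂ → ℂ} (hF : ∀ s : ℂ, 1 < s.re → LSeries vmc s = F s + 1 / (s - 1))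
    {σ : ℝ} (hσ : 0 < σ) (y : ℝ) :
    𝓕 (fun u => Bp u * (Real.exp (-σ * u) : ℂ)) y =
      (F (((1 + σ : ℝ) : ℂ) + ((2 * Real.pi * y : ℝ) : ℂ) * Complex.I) - 1) /
      (((1 + σ : ℝ) : ℂ) + ((2 * Real.pi * y : ℝ) : ℂ) * Complex.I) := by
  have hfun : (fun u => Bp u * (Real.exp (-σ * u) : ℂ)) = h4F vmc σ - eh σ := by
    funext u; exact Bp_mul σ u
  have hi1 : Integrable (h4F vmc σ) := by
    refine (h4_F_int (K := Real.log 4 + 4) (τ := σ) hσ ?_).1
    intro v _
    have := h4_sum_vM vmc_norm v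
    rw [show (1 + σ - σ) * v = v by ring]
    exact this
  rw [hfun]
  have hsub : 𝓕 (h4F vmc σ - eh σ) y = 𝓕 (h4F vmc σ) y - 𝓕 (eh σ) y := by
    rw [Real.fourier_real_eq_integral_exp_smul, Real.fourier_real_eq_integral_exp_smul,
      Real.fourier_real_eq_integral_exp_smul, ← integral_sub]
    · apply integral_congr_ae
      filter_upwards with v
      simp only [Pi.sub_apply, smul_eq_mul]; ring
    · refine hi1.bdd_mul (c := 1) (by fun_prop) ?_
      filter_upwards with v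
      rw [Complex.norm_exp_ofReal_mul_I]
    · refine (eh_int hσ).bdd_mul (c := 1) (by fun_prop) ?_
      filter_upwards with v
      rw [Complex.norm_exp_ofReal_mul_I]
  have hs : LSeriesSummable vmc ((1 + σ : ℝ) : ℂ) :=
    ArithmeticFunction.LSeriesSummable_vonMangoldt (by rw [Complex.ofReal_re]; linarith)
  rw [hsub, h4_F_fourier hσ hs, eh_fourier hσ]
  set s : ℂ := ((1 + σ : ℝ) : ℂ) + ((2 * Real.pi * y : ℝ) : ℂ) * Complex.I with hsd
  have hre : s.re = 1 + σ := by simp [hsd]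
  have hs0 : s ≠ 0 := by
    intro h; rw [h, Complex.zero_re] at hre; linarith
  have hs1 : s - 1 ≠ 0 := by
    intro h
    have : s = 1 := sub_eq_zero.mp h
    rw [this, Complex.one_re] at hre; linarith
  have he : (σ : ℂ) + ((2 * Real.pi * y : ℝ) : ℂ) * Complex.I = s - 1 := by
    rw [hsd]; push_cast; ring
  rw [he, hF s (by rw [hre]; linarith)]
  field_simp
  ring

theorem Bp_norm (u : ℝ) : ‖Bp u‖ ≤ (Real.log 4 + 4) + 1 := by
  have hl : 0 < Real.log 4 := Real.log_pos (by norm_num)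
  rw [Bp]
  refine le_trans (norm_sub_le _ _) (add_le_add ?_ ?_)
  · rw [h4F, norm_mul, Complex.norm_real, Real.norm_of_nonneg (Real.exp_pos _).le]
    calc ‖Sg vmc (Real.exp u)‖ * Real.exp (-((1 + 0) * u)) ≤
        ((Real.log 4 + 4) * Real.exp u) * Real.exp (-((1 + 0) * u)) :=
          mul_le_mul_of_nonneg_right (h4_sum_vM vmc_norm u) (Real.exp_pos _).le
      _ = Real.log 4 + 4 := by
          rw [mul_assoc, ← Real.exp_add]
          simp
  · rw [eh]
    split_ifs
    · simp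
    · simp

theorem Bp_slow (hBT : ST_BT) : ∀ ε : ℝ, 0 < ε → ∃ δ : ℝ, 0 < δ ∧ ∃ U : ℝ, ∀ u v, U ≤ u → u ≤ v →
    v ≤ u + δ → ‖Bp v - Bp u‖ ≤ ε := by
  intro ε hε
  obtain ⟨C, hC, hB⟩ := hBT
  have hl : 0 < Real.log 4 := Real.log_pos (by norm_num)
  obtain ⟨K, hK⟩ : ∃ K, K = Real.log 4 + 4 := ⟨_, rfl⟩
  have hK0 : 0 < K := by rw [hK]; linarith
  obtain ⟨h, hh⟩ : ∃ h, h = max 1 (2 * C / ε) := ⟨_, rfl⟩
  have hh1 : 1 ≤ h := by rw [hh]; exact le_max_left _ _
  have hh2 : 2 * C / ε ≤ h := by rw [hh]; exact le_max_right _ _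
  have hh0 : 0 < h := by linarith
  obtain ⟨y₀, hy⟩ := hB h hh1
  have hlh : 0 < Real.log (1 + 1 / h) := Real.log_pos (by have : 0 < 1 / h := by positivity
                                                          linarith)
  refine ⟨min (Real.log (1 + 1 / h)) (ε / (2 * K)), lt_min hlh (by positivity),
    max 0 (Real.log (max y₀ 1)), ?_⟩
  intro u v hu huv hv
  have hu0 : 0 ≤ u := le_trans (le_max_left _ _) hu
  have hu1 : Real.log (max y₀ 1) ≤ u := le_trans (le_max_right _ _) hu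
  have hv0 : 0 ≤ v := le_trans hu0 huv
  have hyu : y₀ ≤ Real.exp u := by
    rw [Real.log_le_iff_le_exp (by have := le_max_right y₀ 1; linarith)] at hu1
    exact le_trans (le_max_left _ _) hu1
  have hv1 : v ≤ u + Real.log (1 + 1 / h) := le_trans hv (by gcongr; exact min_le_left _ _)
  have hv2 : v ≤ u + ε / (2 * K) := le_trans hv (by gcongr; exact min_le_right _ _)
  have hev : Real.exp v ≤ Real.exp u + Real.exp u / h := by
    calc Real.exp v ≤ Real.exp (u + Real.log (1 + 1 / h)) := Real.exp_le_exp.mpr hv1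
      _ = Real.exp u * (1 + 1 / h) := by
          rw [Real.exp_add, Real.exp_log (by positivity)]
      _ = Real.exp u + Real.exp u / h := by ring
  have hexp : Real.exp u ≤ Real.exp v := Real.exp_le_exp.mpr huv
  -- the increments of the summatory function
  have hinc : ‖Sg vmc (Real.exp v) - Sg vmc (Real.exp u)‖ ≤ C * (Real.exp u / h) := by
    have h1 := hy (Real.exp u) hyu
    have h2 : Chebyshev.psi (Real.exp v) - Chebyshev.psi (Real.exp u) =
        ∑ n ∈ Ioc ⌊Real.exp u⌋₊ ⌊Real.exp v⌋₊, ArithmeticFunction.vonMangoldt n := by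
      have e1 : Chebyshev.psi (Real.exp v) =
        ∑ n ∈ Ioc 0 ⌊Real.exp v⌋₊, ArithmeticFunction.vonMangoldt n := rfl
      have e2 : Chebyshev.psi (Real.exp u) =
        ∑ n ∈ Ioc 0 ⌊Real.exp u⌋₊, ArithmeticFunction.vonMangoldt n := rfl
      rw [e1, e2, ← Finset.Ioc_union_Ioc_eq_Ioc (Nat.zero_le _) (Nat.floor_mono hexp),
        Finset.sum_union]
      · ring
      · rw [Finset.disjoint_left]
        intro a ha hb
        rw [Finset.mem_Ioc] at ha hb
        omega
    have h3 : 0 ≤ ∑ n ∈ Ioc ⌊Real.exp u⌋₊ ⌊Real.exp v⌋₊, ArithmeticFunction.vonMangoldt n :=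
      Finset.sum_nonneg fun n _ => ArithmeticFunction.vonMangoldt_nonneg
    rw [Sg_vmc, Sg_vmc, ← Complex.ofReal_sub, Complex.norm_real, h2, Real.norm_of_nonneg h3]
    refine le_trans ?_ h1
    apply Finset.sum_le_sum_of_subset_of_nonneg
    · rw [IocN]
      exact Finset.Ioc_subset_Ioc le_rfl (Nat.floor_mono hev)
    · intro n _ _
      exact ArithmeticFunction.vonMangoldt_nonneg
  have hBv : ∀ w : ℝ, 0 ≤ w → Bp w = Sg vmc (Real.exp w) * ((Real.exp (-w) : ℝ) : ℂ) - 1 := by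
    intro w hw
    rw [Bp, h4F, eh, if_pos hw]
    congr 2
    · congr 2; ring
    · simp
  have hdec : Bp v - Bp u = (Sg vmc (Real.exp v) - Sg vmc (Real.exp u)) * ((Real.exp (-v) : ℝ) : ℂ) +
      Sg vmc (Real.exp u) * (((Real.exp (-v) - Real.exp (-u) : ℝ)) : ℂ) := by
    rw [hBv v hv0, hBv u hu0]; push_cast; ring
  rw [hdec]
  have ht1 : ‖(Sg vmc (Real.exp v) - Sg vmc (Real.exp u)) * ((Real.exp (-v) : ℝ) : ℂ)‖ ≤ ε / 2 := by
    rw [norm_mul, Complex.norm_real, Real.norm_of_nonneg (Real.exp_pos _).le]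
    calc _ ≤ C * (Real.exp u / h) * Real.exp (-u) :=
          mul_le_mul hinc (Real.exp_le_exp.mpr (by linarith)) (Real.exp_pos _).le (by positivity)
      _ = C / h := by
          rw [Real.exp_neg]
          have := (Real.exp_pos u).ne'
          field_simp
      _ ≤ ε / 2 := by
          rw [div_le_div_iff₀ hh0 (by norm_num)]
          rw [div_le_iff₀ hε] at hh2
          linarith
  have ht2 : ‖Sg vmc (Real.exp u) * (((Real.exp (-v) - Real.exp (-u) : ℝ)) : ℂ)‖ ≤ ε / 2 := by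
    rw [norm_mul, Complex.norm_real]
    have h1 : ‖Real.exp (-v) - Real.exp (-u)‖ ≤ Real.exp (-u) * (ε / (2 * K)) := by
      rw [Real.norm_eq_abs, abs_sub_comm, abs_of_nonneg (by
        have := Real.exp_le_exp.mpr (by linarith : -v ≤ -u); linarith)]
      have h2 : Real.exp (-v) = Real.exp (-u) * Real.exp (-(v - u)) := by
        rw [← Real.exp_add]; congr 1; ring
      have h3 : 1 - (v - u) ≤ Real.exp (-(v - u)) := by
        have := Real.add_one_le_exp (-(v - u)); linarith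
      rw [h2]
      have h4 : Real.exp (-u) * (1 - (v - u)) ≤ Real.exp (-u) * Real.exp (-(v - u)) :=
        mul_le_mul_of_nonneg_left h3 (Real.exp_pos _).le
      have h5 : Real.exp (-u) * (v - u) ≤ Real.exp (-u) * (ε / (2 * K)) :=
        mul_le_mul_of_nonneg_left (by linarith) (Real.exp_pos _).le
      nlinarith
    have h2 : ‖Sg vmc (Real.exp u)‖ ≤ K * Real.exp u := by
      rw [hK]; exact h4_sum_vM vmc_norm u
    calc _ ≤ (K * Real.exp u) * (Real.exp (-u) * (ε / (2 * K))) :=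
          mul_le_mul h2 h1 (norm_nonneg _) (by positivity)
      _ = ε / 2 := by
          rw [Real.exp_neg]
          have := (Real.exp_pos u).ne'
          field_simp
  calc _ ≤ ε / 2 + ε / 2 := le_trans (norm_add_le _ _) (add_le_add ht1 ht2)
    _ = ε := by ring

theorem st_PN (hTB : ST_TB) (hBT : ST_BT) : ST_PN := by
  obtain ⟨F, hFc, hF⟩ := exists_F
  let G : ℂ → ℂ := fun s => (F s - 1) / s
  have hG : ContinuousOn G {s | 1 ≤ s.re} := by
    refine (hFc.sub continuousOn_const).div continuousOn_id fun s hs h0 => ?_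
    have hs' : 1 ≤ s.re := hs
    have h0' : s = 0 := h0
    rw [h0', Complex.zero_re] at hs'
    linarith
  have key : Filter.Tendsto Bp Filter.atTop (𝓝 0) := by
    refine hTB Bp ((Real.log 4 + 4) + 1)
      (fun y => G (((1 + 0 : ℝ) : ℂ) + ((2 * Real.pi * y : ℝ) : ℂ) * Complex.I)) ?_ ?_ Bp_norm
      (Bp_slow hBT) ?_ ?_
    · exact ((h4_F_meas vmc 0).sub (eh_meas 0)).aestronglyMeasurable
    · intro u hu
      rw [Bp, h4_F_zero vmc 0 hu, eh, if_neg (not_le.mpr hu), sub_zero]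
    · intro y
      have h1 : Filter.Tendsto (fun σ : ℝ => (((1 + σ : ℝ) : ℂ) +
          ((2 * Real.pi * y : ℝ) : ℂ) * Complex.I : ℂ)) (𝓝[>] 0)
          (𝓝[{s | 1 ≤ s.re}] (((1 + 0 : ℝ) : ℂ) + ((2 * Real.pi * y : ℝ) : ℂ) * Complex.I)) := by
        refine tendsto_nhdsWithin_iff.2 ⟨?_, ?_⟩
        · have : Continuous (fun σ : ℝ => (((1 + σ : ℝ) : ℂ) +
              ((2 * Real.pi * y : ℝ) : ℂ) * Complex.I : ℂ)) := by fun_prop
          exact (this.tendsto 0).mono_left nhdsWithin_le_nhds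
        · filter_upwards [self_mem_nhdsWithin] with σ hσ
          have hσ' : (0 : ℝ) < σ := hσ
          simp
          exact hσ'.le
      have h2 : Filter.Tendsto (fun σ : ℝ => G (((1 + σ : ℝ) : ℂ) +
          ((2 * Real.pi * y : ℝ) : ℂ) * Complex.I)) (𝓝[>] 0)
          (𝓝 (G (((1 + 0 : ℝ) : ℂ) + ((2 * Real.pi * y : ℝ) : ℂ) * Complex.I))) := by
        have h3 := hG (((1 + 0 : ℝ) : ℂ) + ((2 * Real.pi * y : ℝ) : ℂ) * Complex.I) (by simp)
        exact h3.tendsto.comp h1
      refine h2.congr' ?_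
      filter_upwards [self_mem_nhdsWithin] with σ hσ
      have hσ' : (0 : ℝ) < σ := hσ
      rw [Bp_fourier hF hσ' y]
    · intro R
      let K : Set (ℝ × ℝ) := Set.Icc (0 : ℝ) 1 ×ˢ Set.Icc (-R) R
      have hK : IsCompact K := isCompact_Icc.prod isCompact_Icc
      let g : ℝ × ℝ → ℂ := fun p => G (((1 + p.1 : ℝ) : ℂ) +
        ((2 * Real.pi * p.2 : ℝ) : ℂ) * Complex.I)
      have hg : ContinuousOn g K := by
        refine hG.comp (by fun_prop) ?_
        rintro ⟨σ, y⟩ ⟨⟨h1, _⟩, _⟩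
        simp
        exact h1
      obtain ⟨C, hC⟩ := hK.exists_bound_of_continuousOn hg
      refine ⟨C, fun σ hσ y hy => ?_⟩
      have h1 := hC (σ, y) ⟨⟨hσ.1.le, hσ.2⟩, abs_le.1 hy⟩
      rw [Bp_fourier hF hσ.1 y]
      exact h1
  intro ε hε
  rw [Metric.tendsto_atTop] at key
  obtain ⟨U, hU⟩ := key ε hε
  refine ⟨max 1 (Real.exp U), ?_⟩
  intro x hx
  have hx1 : 1 ≤ x := le_trans (le_max_left _ _) hx
  have hx0 : 0 < x := by linarith
  have hxU : U ≤ Real.log x := by
    rw [Real.le_log_iff_exp_le hx0]; exact le_trans (le_max_right _ _) hx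
  have h1 := (hU (Real.log x) hxU).le
  rw [dist_zero_right, Bp, h4F, eh, if_pos (Real.log_nonneg hx1), Real.exp_log hx0, Sg_vmc] at h1
  have h2 : Real.exp (-((1 + 0) * Real.log x)) = x⁻¹ := by
    rw [show (1 + 0) * Real.log x = Real.log x by ring, Real.exp_neg, Real.exp_log hx0]
  rw [h2] at h1
  have h3 : ((Chebyshev.psi x : ℝ) : ℂ) * ((x⁻¹ : ℝ) : ℂ) - ((Real.exp (-0 * Real.log x) : ℝ) : ℂ) =
      (((Chebyshev.psi x - x) / x : ℝ) : ℂ) := by
    have hxc : (x : ℂ) ≠ 0 := by exact_mod_cast hx0.ne'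
    simp only [neg_zero, zero_mul, Real.exp_zero]
    push_cast
    field_simp
  rw [h3, Complex.norm_real, Real.norm_eq_abs, abs_div, abs_of_pos hx0, div_le_iff₀ hx0] at h1
  exact h1

end Pool.Agent.Helper80.AA
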