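import Pool.Agent.Helper99.AA.Stmts
import Pool.Agent.Helper99.AA.Basic
import Pool.Agent.Helper80.AA.LO

set_option autoImplicit false

/-!
Project AA, row PP: Dirichlet polynomials over primes, from the pointwise bound PT.
-/

open Finset MeasureTheory
open scoped BigOperators Nat

namespace Pool.Agent.Helper80.AA

open Pool.Agent.Helper40.MR Pool.Agent.Helper99.AA

theorem abel_mono_aux (f : ℕ → ℝ) (c : ℕ → ℂ) (m : ℕ) (B : ℝ) (N : ℕ) (hmN : m ≤ N)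
    (hB : ∀ k, m ≤ k → k ≤ N → ‖∑ n ∈ Ioc m k, c n‖ ≤ B)
    (hf : ∀ k, m ≤ k → k < N → f (k + 1) ≤ f k) :
    ‖∑ n ∈ Ioc m N, (f n : ℂ) * c n - (f N : ℂ) * ∑ n ∈ Ioc m N, c n‖ ≤ (f m - f N) * B := by
  induction N, hmN using Nat.le_induction with
  | base => simp
  | succ N hmN ih =>
    have ih' := ih (fun k h1 h2 => hB k h1 (by omega)) (fun k h1 h2 => hf k h1 (by omega))
    rw [← Finset.insert_Ioc_right_eq_Ioc_add_one hmN, Finset.sum_insert (by simp),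
      Finset.sum_insert (by simp)]
    have e1 : (f (N + 1) : ℂ) * c (N + 1) + ∑ n ∈ Ioc m N, (f n : ℂ) * c n -
        (f (N + 1) : ℂ) * (c (N + 1) + ∑ n ∈ Ioc m N, c n) =
        (∑ n ∈ Ioc m N, (f n : ℂ) * c n - (f N : ℂ) * ∑ n ∈ Ioc m N, c n) +
        ((f N - f (N + 1) : ℝ) : ℂ) * ∑ n ∈ Ioc m N, c n := by
      push_cast; ring
    rw [e1]
    have h3 : 0 ≤ f N - f (N + 1) := by
      have := hf N hmN (by omega); linarith
    calc _ ≤ ‖∑ n ∈ Ioc m N, (f n : ℂ) * c n - (f N : ℂ) * ∑ n ∈ Ioc m N, c n‖ +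
          ‖((f N - f (N + 1) : ℝ) : ℂ) * ∑ n ∈ Ioc m N, c n‖ := norm_add_le _ _
      _ ≤ (f m - f N) * B + (f N - f (N + 1)) * B := by
          apply add_le_add ih'
          rw [norm_mul, Complex.norm_real, Real.norm_of_nonneg h3]
          exact mul_le_mul_of_nonneg_left (hB N hmN (by omega)) h3
      _ = (f m - f (N + 1)) * B := by ring

theorem abel_mono (f : ℕ → ℝ) (c : ℕ → ℂ) (m : ℕ) (B : ℝ) (N : ℕ) (hmN : m ≤ N)
    (hB : ∀ k, m ≤ k → k ≤ N → ‖∑ n ∈ Ioc m k, c n‖ ≤ B)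
    (hf : ∀ k, m ≤ k → k < N → f (k + 1) ≤ f k) (hfN : 0 ≤ f N) :
    ‖∑ n ∈ Ioc m N, (f n : ℂ) * c n‖ ≤ f m * B := by
  have h1 := abel_mono_aux f c m B N hmN hB hf
  have h2 : ‖(f N : ℂ) * ∑ n ∈ Ioc m N, c n‖ ≤ f N * B := by
    rw [norm_mul, Complex.norm_real, Real.norm_of_nonneg hfN]
    exact mul_le_mul_of_nonneg_left (hB N hmN le_rfl) hfN
  calc ‖∑ n ∈ Ioc m N, (f n : ℂ) * c n‖ =
      ‖(∑ n ∈ Ioc m N, (f n : ℂ) * c n - (f N : ℂ) * ∑ n ∈ Ioc m N, c n) +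
        (f N : ℂ) * ∑ n ∈ Ioc m N, c n‖ := by rw [sub_add_cancel]
    _ ≤ (f m - f N) * B + f N * B := le_trans (norm_add_le _ _) (add_le_add h1 h2)
    _ = f m * B := by ring

theorem Sg_sub (c : ℕ → ℂ) {m k : ℕ} (h : m ≤ k) :
    ∑ n ∈ Ioc m k, c n = Sg c k - Sg c m := by
  rw [Sg, Sg, Nat.floor_natCast, Nat.floor_natCast]
  have h1 : Icc 1 k = Icc 1 m ∪ Ioc m k := by
    ext a; simp only [Finset.mem_Icc, Finset.mem_union, Finset.mem_Ioc]; omega
  have h2 : Disjoint (Icc 1 m) (Ioc m k) := by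
    rw [Finset.disjoint_left]; intro a ha hb
    rw [Finset.mem_Icc] at ha; rw [Finset.mem_Ioc] at hb; omega
  rw [h1, Finset.sum_union h2]; ring

theorem Sg_floor (c : ℕ → ℂ) (a : ℝ) : Sg c (⌊a⌋₊ : ℝ) = Sg c a := by
  rw [Sg, Sg, Nat.floor_natCast]

/-- The weight `1 / (n log n)`. -/
noncomputable def fw (n : ℕ) : ℝ := 1 / ((n : ℝ) * Real.log n)

theorem fw_nonneg (n : ℕ) : 0 ≤ fw n := by
  rw [fw]
  apply div_nonneg zero_le_one
  exact mul_nonneg (Nat.cast_nonneg _) (Real.log_natCast_nonneg n)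

theorem fw_anti {m n : ℕ} (hm : 2 ≤ m) (h : m ≤ n) : fw n ≤ fw m := by
  rw [fw, fw]
  have h1 : (2 : ℝ) ≤ m := by exact_mod_cast hm
  have h2 : (m : ℝ) ≤ n := by exact_mod_cast h
  have h3 : 0 < Real.log m := Real.log_pos (by linarith)
  have h4 : Real.log m ≤ Real.log n := Real.log_le_log (by linarith) h2
  apply one_div_le_one_div_of_le (by positivity)
  exact mul_le_mul h2 h4 h3.le (by linarith)

theorem st_PP (hPT : ST_PT) : ST_PP := by
  intro A ε hA hε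
  obtain ⟨T, hT, x₀, hx₀⟩ := hPT (2 * A) (ε / 64) (by linarith) (by positivity)
  obtain ⟨C, hC⟩ := Chebyshev.psi_sub_theta_le_mul_sqrt
  refine ⟨T, hT, max (max (2 * x₀) 16) (2 * (16 * C / ε) ^ 2), ?_⟩
  intro M a b t hM ha hab hb ht1 ht2
  have hM1 : 2 * x₀ ≤ M := le_trans (le_trans (le_max_left _ _) (le_max_left _ _)) hM
  have hM2 : 16 ≤ M := le_trans (le_trans (le_max_right _ _) (le_max_left _ _)) hM
  have hM3 : 2 * (16 * C / ε) ^ 2 ≤ M := le_trans (le_max_right _ _) hM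
  have hM0 : 0 < M := by linarith
  have hlM : 0 < Real.log M := Real.log_pos (by linarith)
  have ha0 : 0 ≤ a := by linarith
  -- the bound from PT
  obtain ⟨c, hc⟩ : ∃ c : ℕ → ℂ, c = fun n : ℕ =>
    (ArithmeticFunction.vonMangoldt n : ℂ) * nit n t := ⟨_, rfl⟩
  have hS : ∀ x : ℝ, M / 2 ≤ x → x ≤ 2 * M → ‖Sg c x‖ ≤ ε / 32 * M := by
    intro x h1 h2
    have h3 : |t| ≤ x ^ (2 * A) := by
      have h4 : M ≤ x ^ (2 : ℝ) := by
        rw [Real.rpow_two]; nlinarith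
      calc |t| ≤ M ^ A := ht2
        _ ≤ (x ^ (2 : ℝ)) ^ A := Real.rpow_le_rpow hM0.le h4 (by linarith)
        _ = x ^ (2 * A) := by rw [← Real.rpow_mul (by linarith)]
    have h5 := hx₀ x t (by linarith) ht1 h3
    rw [hc]
    calc _ ≤ ε / 64 * x := h5
      _ ≤ ε / 64 * (2 * M) := mul_le_mul_of_nonneg_left h2 (by positivity)
      _ = ε / 32 * M := by ring
  -- the weight
  have hfa1 : M / 4 ≤ (⌊a⌋₊ : ℝ) := by
    have := Nat.lt_floor_add_one a; linarith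
  have hm2 : 2 ≤ ⌊a⌋₊ := by
    have : (2 : ℝ) ≤ (⌊a⌋₊ : ℝ) := by linarith
    exact_mod_cast this
  have hlog : Real.log M / 2 ≤ Real.log (⌊a⌋₊ : ℝ) := by
    have h1 : Real.log (M / 4) ≤ Real.log (⌊a⌋₊ : ℝ) := Real.log_le_log (by linarith) hfa1
    have h2 : Real.log (M / 4) = Real.log M - Real.log 4 :=
      Real.log_div hM0.ne' (by norm_num)
    have h3 : 2 * Real.log 4 ≤ Real.log M := by
      have : Real.log 16 = 2 * Real.log 4 := by
        rw [show (16 : ℝ) = 4 ^ 2 by norm_num, Real.log_pow]; norm_num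
      rw [← this]; exact Real.log_le_log (by norm_num) hM2
    linarith
  have hfw : fw ⌊a⌋₊ ≤ 8 / (M * Real.log M) := by
    rw [fw]
    have h1 : M / 4 * (Real.log M / 2) ≤ (⌊a⌋₊ : ℝ) * Real.log (⌊a⌋₊ : ℝ) :=
      mul_le_mul hfa1 hlog (by positivity) (by positivity)
    calc 1 / ((⌊a⌋₊ : ℝ) * Real.log (⌊a⌋₊ : ℝ)) ≤ 1 / (M / 4 * (Real.log M / 2)) :=
          one_div_le_one_div_of_le (by positivity) h1
      _ = 8 / (M * Real.log M) := by field_simp; norm_num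
  have hfl : ⌊a⌋₊ ≤ ⌊b⌋₊ := Nat.floor_mono hab
  -- partial summation
  have hAb : ‖∑ n ∈ Ioc ⌊a⌋₊ ⌊b⌋₊, (fw n : ℂ) * c n‖ ≤ fw ⌊a⌋₊ * (ε / 16 * M) := by
    apply abel_mono fw c _ _ _ hfl
    · intro k h1 h2
      rcases Nat.eq_or_lt_of_le h1 with h3 | h3
      · rw [← h3]; simp; positivity
      · rw [Sg_sub c h1, Sg_floor]
        have h4 : a ≤ k := ((Nat.floor_lt ha0).mp h3).le
        have h5 : (k : ℝ) ≤ b := by
          calc (k : ℝ) ≤ (⌊b⌋₊ : ℝ) := by exact_mod_cast h2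
            _ ≤ b := Nat.floor_le (by linarith)
        have h6 := hS k (by linarith) (by linarith)
        have h7 := hS a ha (by linarith)
        calc ‖Sg c k - Sg c a‖ ≤ ‖Sg c k‖ + ‖Sg c a‖ := norm_sub_le _ _
          _ ≤ ε / 16 * M := by linarith
    · intro k h1 _
      exact fw_anti (by omega) (by omega)
    · exact fw_nonneg _
  -- prime powers
  have hsplit : ∑ n ∈ Ioc ⌊a⌋₊ ⌊b⌋₊, (fw n : ℂ) * c n =
      DP (PrI a b) (fun _ => 1) t +
      ∑ n ∈ (Ioc ⌊a⌋₊ ⌊b⌋₊).filter (fun n => ¬ n.Prime), (fw n : ℂ) * c n := by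
    rw [← Finset.sum_filter_add_sum_filter_not (Ioc ⌊a⌋₊ ⌊b⌋₊) Nat.Prime]
    congr 1
    rw [DP, PrI, IocN]
    apply Finset.sum_congr rfl
    intro p hp
    rw [Finset.mem_filter] at hp
    rw [hc, fw]
    have hp1 : (1 : ℝ) < p := by exact_mod_cast hp.2.one_lt
    have hlp : Real.log p ≠ 0 := (Real.log_pos hp1).ne'
    have hlp' : (Real.log p : ℂ) ≠ 0 := by exact_mod_cast hlp
    have hp0 : (p : ℂ) ≠ 0 := by exact_mod_cast hp.2.ne_zero
    beta_reduce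
    rw [ArithmeticFunction.vonMangoldt_apply_prime hp.2]
    push_cast at hlp' ⊢
    field_simp
  have hpp : ‖∑ n ∈ (Ioc ⌊a⌋₊ ⌊b⌋₊).filter (fun n => ¬ n.Prime), (fw n : ℂ) * c n‖ ≤
      fw ⌊a⌋₊ * (C * Real.sqrt b) := by
    calc _ ≤ ∑ n ∈ (Ioc ⌊a⌋₊ ⌊b⌋₊).filter (fun n => ¬ n.Prime), ‖(fw n : ℂ) * c n‖ :=
          norm_sum_le _ _
      _ ≤ ∑ n ∈ (Ioc ⌊a⌋₊ ⌊b⌋₊).filter (fun n => ¬ n.Prime),
            fw ⌊a⌋₊ * ArithmeticFunction.vonMangoldt n := by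
          apply Finset.sum_le_sum
          intro n hn
          rw [Finset.mem_filter, Finset.mem_Ioc] at hn
          rw [hc, norm_mul, norm_mul, norm_nit, mul_one, Complex.norm_real, Complex.norm_real,
            Real.norm_of_nonneg (fw_nonneg n),
            Real.norm_of_nonneg ArithmeticFunction.vonMangoldt_nonneg]
          exact mul_le_mul_of_nonneg_right (fw_anti hm2 (by omega))
            ArithmeticFunction.vonMangoldt_nonneg
      _ = fw ⌊a⌋₊ * ∑ n ∈ (Ioc ⌊a⌋₊ ⌊b⌋₊).filter (fun n => ¬ n.Prime),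
            ArithmeticFunction.vonMangoldt n := by rw [Finset.mul_sum]
      _ ≤ fw ⌊a⌋₊ * (C * Real.sqrt b) := by
          apply mul_le_mul_of_nonneg_left _ (fw_nonneg _)
          refine le_trans ?_ (hC b)
          rw [Chebyshev.psi_sub_theta_eq_sum_not_prime]
          apply Finset.sum_le_sum_of_subset_of_nonneg
          · intro n hn
            rw [Finset.mem_filter, Finset.mem_Ioc] at hn
            rw [Finset.mem_filter, Finset.mem_Ioc]
            exact ⟨⟨by omega, hn.1.2⟩, hn.2⟩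
          · intro n _ _
            exact ArithmeticFunction.vonMangoldt_nonneg
  have hsq : C * Real.sqrt b ≤ ε / 16 * M := by
    by_cases hC0 : C ≤ 0
    · have : C * Real.sqrt b ≤ 0 := mul_nonpos_of_nonpos_of_nonneg hC0 (Real.sqrt_nonneg _)
      have : 0 ≤ ε / 16 * M := by positivity
      linarith
    · push Not at hC0
      have h1 : C * Real.sqrt b = Real.sqrt (C ^ 2 * b) := by
        rw [Real.sqrt_mul (sq_nonneg C), Real.sqrt_sq hC0.le]
      rw [h1]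
      apply Real.sqrt_le_iff.mpr
      refine ⟨by positivity, ?_⟩
      have h2 : 2 * (16 * C / ε) ^ 2 * (ε / 16) ^ 2 = 2 * C ^ 2 := by
        field_simp
      have h3 : 2 * C ^ 2 ≤ M * (ε / 16) ^ 2 := by
        rw [← h2]
        exact mul_le_mul_of_nonneg_right hM3 (by positivity)
      calc C ^ 2 * b ≤ C ^ 2 * (2 * M) := mul_le_mul_of_nonneg_left hb (by positivity)
        _ = (2 * C ^ 2) * M := by ring
        _ ≤ (M * (ε / 16) ^ 2) * M := mul_le_mul_of_nonneg_right h3 hM0.le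
        _ = (ε / 16 * M) ^ 2 := by ring
  have hDP : DP (PrI a b) (fun _ => 1) t = ∑ n ∈ Ioc ⌊a⌋₊ ⌊b⌋₊, (fw n : ℂ) * c n -
      ∑ n ∈ (Ioc ⌊a⌋₊ ⌊b⌋₊).filter (fun n => ¬ n.Prime), (fw n : ℂ) * c n := by
    rw [hsplit]; ring
  rw [hDP]
  calc _ ≤ fw ⌊a⌋₊ * (ε / 16 * M) + fw ⌊a⌋₊ * (C * Real.sqrt b) :=
        le_trans (norm_sub_le _ _) (add_le_add hAb hpp)
    _ ≤ fw ⌊a⌋₊ * (ε / 16 * M) + fw ⌊a⌋₊ * (ε / 16 * M) := by
        gcongr
        exact fw_nonneg _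
    _ = fw ⌊a⌋₊ * (ε / 8 * M) := by ring
    _ ≤ 8 / (M * Real.log M) * (ε / 8 * M) :=
        mul_le_mul_of_nonneg_right hfw (by positivity)
    _ = ε / Real.log M := by field_simp

end Pool.Agent.Helper80.AA
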